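import Pool.Agent.H9.Klee2

namespace Pool.Agent.Results.MP_beddab_an.Banach

/-- the annihilator of the vectors `x i` in the dual space -/
def ann (𝕜 : Type) {E : Type} [RCLike 𝕜] [NormedAddCommGroup E] [NormedSpace 𝕜 E] {n : ℕ} (x : Fin n → E) :
    Submodule 𝕜 (StrongDual 𝕜 E) where
  carrier := {g | ∀ i, g (x i) = 0}
  add_mem' := fun hf hg i => by simp [hf i, hg i]
  zero_mem' := fun _ => rfl
  smul_mem' := fun c g hg i => by simp [hg i]

theorem result (𝕜 E : Type) [RCLike 𝕜] [NormedAddCommGroup E] [NormedSpace 𝕜 E] [CompleteSpace E]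
    [TopologicalSpace.SeparableSpace E] (n : ℕ) (hn : (n : Cardinal) ≤ Module.rank 𝕜 E) :
    ∃ x : Fin n → E, LinearIndependent 𝕜 x ∧
      IsClosed (StrongDual.toWeakDual '' (ann 𝕜 x : Set (StrongDual 𝕜 E))) ∧
      Module.rank 𝕜 (StrongDual 𝕜 E ⧸ ann 𝕜 x) = n ∧
      ∀ φ : StrongDual 𝕜 E, ∃! g, g ∈ ann 𝕜 x ∧
        ‖φ - g‖ = Metric.infDist φ (ann 𝕜 x) := by
  obtain ⟨x, h1, h2⟩ := H9.Klee2.main hn
  refine ⟨x, h1, ?_, ?_, h2⟩
  · have : StrongDual.toWeakDual '' (ann 𝕜 x : Set (StrongDual 𝕜 E)) = ⋂ i, {g | g (x i) = 0} := by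
      ext g
      exact ⟨fun ⟨f, h, h'⟩ => h' ▸ Set.mem_iInter.2 h, fun h => ⟨g, fun i => Set.mem_iInter.1 h i, rfl⟩⟩
    rw [this]
    exact isClosed_iInter fun i => isClosed_eq (WeakDual.eval_continuous _) continuous_const
  · let L : StrongDual 𝕜 E →ₗ[𝕜] Fin n → 𝕜 :=
      { toFun := fun g i => g (x i), map_add' := fun _ _ => rfl, map_smul' := fun _ _ => rfl }
    have h3 : ann 𝕜 x = LinearMap.ker L := by
      ext g
      exact funext_iff.symm
    have h4 : Function.Surjective L := fun c => by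
      have : FiniteDimensional 𝕜 (Submodule.span 𝕜 (Set.range x)) :=
        FiniteDimensional.span_of_finite _ (Set.finite_range x)
      obtain ⟨g, hg, -⟩ := exists_extension_norm_eq _
        (LinearMap.toContinuousLinearMap ((Module.Basis.span h1).constr 𝕜 c))
      refine ⟨g, funext fun i => ?_⟩
      have := hg (Module.Basis.span h1 i)
      rw [LinearMap.coe_toContinuousLinearMap', Module.Basis.constr_basis,
        Module.Basis.coe_span_apply] at this
      exact this
    rw [h3, (L.quotKerEquivOfSurjective h4).rank_eq]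
    simp

end Pool.Agent.Results.MP_beddab_an.Banach
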