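import Mathlib

namespace Pool.Agent.Results.MP_beddab_an.Incomplete
open Set Metric

theorem result : ∃ (E : Type) (_ : NormedAddCommGroup E) (_ : NormedSpace ℝ E),
    TopologicalSpace.SeparableSpace E ∧ ¬ FiniteDimensional ℝ E ∧
    ∀ n : ℕ, 1 ≤ n → ∀ x : Fin n → E, LinearIndependent ℝ x →
      ¬ ∀ φ : StrongDual ℝ E, ∃! g, g ∈ {g : StrongDual ℝ E | ∀ i, g (x i) = 0} ∧
        ‖φ - g‖ = infDist φ {g : StrongDual ℝ E | ∀ i, g (x i) = 0} := by
  let e : ℕ → lp (fun _ : ℕ => ℝ) 1 := fun i => lp.single 1 i 1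
  let E := Submodule.span ℝ (range e)
  let e' : ℕ → E := fun i => ⟨e i, Submodule.subset_span ⟨i, rfl⟩⟩
  let π : ℕ → StrongDual ℝ E := fun j => (lp.evalCLM (𝕜 := ℝ) _ 1 j).comp E.subtypeL
  have h1 : ∀ j, π j (e' j) = 1 := fun j => lp.single_apply_self (E := fun _ : ℕ => ℝ) 1 j 1
  have h2 : ∀ y : E, ∀ᶠ j in Filter.atTop, π j y = 0 := by
    rintro ⟨y, hy⟩
    induction hy using Submodule.span_induction with
    | mem y h =>
      obtain ⟨i, rfl⟩ := h
      filter_upwards [Filter.eventually_gt_atTop i] with j hj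
      exact lp.single_apply_ne (E := fun _ : ℕ => ℝ) 1 i 1 hj.ne'
    | zero => exact .of_forall fun j => map_zero (π j)
    | add a b ha hb h h' =>
      filter_upwards [h, h'] with j e1 e2
      exact (map_add (π j) ⟨a, ha⟩ ⟨b, hb⟩).trans (by rw [e1, e2, add_zero])
    | smul c a ha h =>
      filter_upwards [h] with j e1
      exact (map_smul (π j) c ⟨a, ha⟩).trans (by rw [e1, smul_zero])
  have h3 : ∀ (y : E) j, ‖y‖ - ‖y - π j y • e' j‖ = |π j y| := fun y j => by
    have := lp.norm_sub_norm_compl_sub_single (p := 1) (by simp) y.1 {j}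
    simp only [ENNReal.toReal_one, Real.rpow_one, Finset.sum_singleton] at this
    show ‖y.1‖ - ‖y.1 - y.1 j • lp.single 1 j (1 : ℝ)‖ = _
    rw [← lp.single_smul, smul_eq_mul, mul_one]
    exact this
  refine ⟨E, inferInstance, inferInstance, (countable_range e).isSeparable.span.separableSpace,
    fun h => ?_, fun n hn x hx h => ?_⟩
  · obtain ⟨j, hj⟩ := (Filter.eventually_all.2 fun i => h2 (Module.finBasis ℝ E i)).exists
    have : (π j : E →ₗ[ℝ] ℝ) = 0 := (Module.finBasis ℝ E).ext hj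
    exact one_ne_zero ((h1 j).symm.trans (LinearMap.congr_fun this _))
  obtain ⟨j, hj⟩ := (Filter.eventually_all.2 fun i => h2 (x i)).exists
  have h4 := norm_pos_iff.2 (hx.ne_zero ⟨0, hn⟩)
  have h5 := hj ⟨0, hn⟩
  generalize hy : x ⟨0, hn⟩ = y at h4 h5
  obtain ⟨f, h6, h7⟩ := exists_dual_vector'' ℝ (y + e' j)
  have h8 := h3 (y + e' j) j
  have h9 := h3 (e' j) j
  rw [map_add, h5, h1, zero_add, one_smul, add_sub_cancel_right, abs_one] at h8
  rw [h1, one_smul, sub_self, norm_zero, sub_zero, abs_one] at h9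
  have h10 : ∀ z, |f z| ≤ ‖z‖ := fun z =>
    (f.le_opNorm z).trans (mul_le_of_le_one_left (norm_nonneg _) h6)
  have h11 := le_of_abs_le (h10 y)
  have h12 := le_of_abs_le (h10 (e' j))
  rw [map_add] at h7
  have h7' : f y + f (e' j) = ‖y + e' j‖ := h7
  have h13 : ∀ g ∈ {g : StrongDual ℝ E | ∀ i, g (x i) = 0}, ‖f - g‖ ≤ 1 →
      ‖f - g‖ = infDist f {g : StrongDual ℝ E | ∀ i, g (x i) = 0} := fun g hg h' =>
    le_antisymm (h'.trans ((le_infDist ⟨g, hg⟩).2 fun g' hg' => by
      have := le_of_abs_le ((f - g').le_opNorm y)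
      rw [sub_apply, ← hy, hg', hy, ← dist_eq_norm f g'] at this
      nlinarith)) ((infDist_le_dist_of_mem hg).trans_eq (dist_eq_norm f g))
  have h14 := (h f).unique ⟨hj, h13 _ hj (ContinuousLinearMap.opNorm_le_bound _ zero_le_one
    fun z => by
      have e1 := h10 (z - π j z • e' j)
      have e2 := h3 z j
      have e3 := abs_nonneg (π j z)
      rw [map_sub, map_smul, show f (e' j) = 1 by linarith, smul_eq_mul, mul_one] at e1
      exact e1.trans (by linarith))⟩ ⟨fun _ => rfl, h13 0 (fun _ => rfl) (by simpa using h6)⟩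
  exact one_ne_zero ((h1 j).symm.trans (DFunLike.congr_fun h14 _))

end Pool.Agent.Results.MP_beddab_an.Incomplete
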